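import Mathlib
import Pool.Agent.Lib.MP_19b6b2_an.Defs
import Pool.Agent.Lib.MP_19b6b2_an.Hilbert

namespace Pool.Agent.Results.MP_19b6b2_an.ExactOrder

open Pool.Agent.Lib.MP_19b6b2_an Real Filter Topology

lemma bounds (H : Type*) [NormedAddCommGroup H] [InnerProductSpace ℝ H]
    (hH : ¬ FiniteDimensional ℝ H) {s : ℝ} (hs1 : 1.14 < s) (hs2 : s < 1.17)
    (hl : lam s ^ (s + 2) = s + 1) :
    ∃ c C : ℝ, 0 < c ∧ c ≤ C ∧ ∀ m : ℕ, 1 ≤ m → ∀ N : ℕ∞, (m : ℕ∞) ≤ N →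
      c * (m : ℝ) ^ (-(s / (2 * (2 + s)))) ≤ worstError H N m ∧
        worstError H N m ≤ C * (m : ℝ) ^ (-(s / (2 * (2 + s)))) := by
  obtain ⟨d, hd, hp, h0, c, hc, hc'⟩ := exists_kernel hs1 hs2 hl
  have hB := hd.hB 0
  have hsq : ∀ m : ℕ, 1 ≤ m → ((m : ℝ) ^ (-(s / (2 * (2 + s))))) ^ 2
      = (m : ℝ) ^ (-(s / (s + 2))) := by
    intro m hm
    rw [← rpow_natCast, ← rpow_mul (Nat.cast_nonneg m)]
    congr 1
    have : 2 + s ≠ 0 := by linarith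
    have : s + 2 ≠ 0 := by linarith
    push_cast; field_simp; ring
  refine ⟨min (√c / d.B 0) 6, 6, lt_min (by positivity) (by norm_num), min_le_right _ _,
    fun m hm N hN => ?_⟩
  have hm0 : (0 : ℝ) < m := by exact_mod_cast hm
  have hT : 0 < (m : ℝ) ^ (-(s / (2 * (2 + s)))) := rpow_pos_of_pos hm0 _
  have hup : ∀ e ∈ {e | ∃ (D : Set H) (f : H) (φ : ℕ → H),
      IsDictionary D ∧ f ∈ A1 D ∧ IsRealization D f φ N ∧ e = ‖f - approx f φ m‖},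
      e ≤ 6 * (m : ℝ) ^ (-(s / (2 * (2 + s)))) := by
    rintro _ ⟨D, f, φ, h1, h2, h3, rfl⟩
    have := pga_upper hs1 hs2 hl hm hN h1 h2 h3
    rw [← hsq m hm] at this
    refine le_of_sq_le_sq ?_ (by positivity)
    nlinarith [sq_nonneg ((m : ℝ) ^ (-(s / (2 * (2 + s)))))]
  refine ⟨?_, Real.sSup_le hup (by positivity)⟩
  obtain ⟨D, f, φ, h1, h2, h3, h4⟩ := pga_lower hH d hd hp h0 m
  refine le_trans ?_ (le_csSup ⟨_, hup⟩
    ⟨D, f, φ, h1, h2, fun k hk => h3 k (lt_of_lt_of_le hk le_top), rfl⟩)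
  refine le_trans (mul_le_mul_of_nonneg_right (min_le_left _ _) hT.le) ?_
  refine le_of_sq_le_sq ?_ (norm_nonneg _)
  rw [h4, mul_pow, hsq m hm, div_pow, sq_sqrt hc.le, div_mul_eq_mul_div]
  exact div_le_div_of_nonneg_right (hc' m hm) (sq_nonneg _)

lemma exponent_le {α β c C : ℝ} (hc : 0 < c)
    (h : ∀ m : ℕ, 1 ≤ m → c * (m : ℝ) ^ (-α) ≤ C * (m : ℝ) ^ (-β)) : β ≤ α := by
  by_contra hlt
  push Not at hlt
  have t := (tendsto_rpow_atTop (sub_pos.2 hlt)).comp (tendsto_natCast_atTop_atTop (R := ℝ))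
  obtain ⟨m, hm1, hm2⟩ := ((t.eventually_gt_atTop (C / c)).and (eventually_ge_atTop 1)).exists
  have hm0 : (0 : ℝ) < m := by exact_mod_cast hm2
  have e : (m : ℝ) ^ (-α) = (m : ℝ) ^ (β - α) * (m : ℝ) ^ (-β) := by
    rw [← rpow_add hm0]; congr 1; ring
  have h1 := h m hm2
  rw [e, ← mul_assoc] at h1
  have h2 := le_of_mul_le_mul_right h1 (rpow_pos_of_pos hm0 _)
  simp only [Function.comp] at hm1
  rw [div_lt_iff₀ hc] at hm1
  linarith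

theorem result (H : Type*) [NormedAddCommGroup H] [InnerProductSpace ℝ H] [CompleteSpace H]
    (hH : ¬ FiniteDimensional ℝ H) :
    ∃ s : ℝ, 1.14 < s ∧ s < 1.17 ∧
      (1 + s) ^ (1 / (2 + s)) * (1 + 1 / (1 + s)) = 1 + 1 / s ∧
      (∀ t : ℝ, 1 < t → (1 + t) ^ (1 / (2 + t)) * (1 + 1 / (1 + t)) = 1 + 1 / t → t = s) ∧
      ∃ c C : ℝ, 0 < c ∧ c ≤ C ∧ ∀ m : ℕ, 1 ≤ m → ∀ N : ℕ∞, (m : ℕ∞) ≤ N →
        c * (m : ℝ) ^ (-(s / (2 * (2 + s)))) ≤ worstError H N m ∧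
          worstError H N m ≤ C * (m : ℝ) ^ (-(s / (2 * (2 + s)))) := by
  obtain ⟨s, hs, hr⟩ := root_exists
  have hs0 : 0 < s := by linarith
  obtain ⟨hs1, hs2⟩ := root_bounds hs hr
  have hb := bounds H hH hs1 hs2 (lam_rpow hs0 hr)
  refine ⟨s, hs1, hs2, (root_iff hs0).2 hr, fun t ht hrt => ?_, hb⟩
  have ht0 : 0 < t := by linarith
  rw [root_iff ht0] at hrt
  obtain ⟨ht1, ht2⟩ := root_bounds ht hrt
  obtain ⟨c, C, hc, -, h1⟩ := hb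
  obtain ⟨c', C', hc', -, h2⟩ := bounds H hH ht1 ht2 (lam_rpow ht0 hrt)
  have e1 := exponent_le hc fun m hm => (h1 m hm ⊤ le_top).1.trans (h2 m hm ⊤ le_top).2
  have e2 := exponent_le hc' fun m hm => (h2 m hm ⊤ le_top).1.trans (h1 m hm ⊤ le_top).2
  have e := le_antisymm e1 e2
  rw [div_eq_div_iff (by positivity) (by positivity)] at e
  linarith

end Pool.Agent.Results.MP_19b6b2_an.ExactOrder
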