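import Mathlib
import Pool.Agent.Lib.MP_19b6b2_an.W.Defs
import Pool.Agent.Lib.MP_19b6b2_an.W.Main

namespace Pool.Agent.Results.MP_19b6b2_an.WeakGreedy

open Pool.Agent.Lib.MP_19b6b2_an.W

theorem result (H : Type*) [NormedAddCommGroup H] [InnerProductSpace ℝ H] [CompleteSpace H]
    (hH : ¬ FiniteDimensional ℝ H) (t : ℝ) (ht0 : 0 < t) (ht1 : t < 1) :
    ∃ s : ℝ, 0 < s ∧ (1 + s) ^ (1 / (2 + s)) * (1 + 1 / (1 + s)) = 1 + t / s ∧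
      (∀ u : ℝ, 0 < u → (1 + u) ^ (1 / (2 + u)) * (1 + 1 / (1 + u)) = 1 + t / u → u = s) ∧
      ∃ c C : ℝ, 0 < c ∧ c ≤ C ∧ ∀ m : ℕ, 1 ≤ m →
        c * (m : ℝ) ^ (-(s / (2 * (2 + s)))) ≤ weakError H t m ∧
          weakError H t m ≤ C * (m : ℝ) ^ (-(s / (2 * (2 + s)))) :=
  main H hH t ht0 ht1.le

end Pool.Agent.Results.MP_19b6b2_an.WeakGreedy
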